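import Pool.Agent.N339.BS.Omega

/-!
# One exceptional set for all finitely generated fields
-/

set_option autoImplicit false

namespace Pool.Agent.N339.BS

open Finset Polynomial Pool.Agent.TH377.Sup Pool.Agent.N666.TM Pool.Agent.N92.TH
open Pool.Agent.N666.VE (primes)

universe v w y u

/-! ### null sets -/

theorem nullIn_mono {S : ℕ → Finset ℕ} {E E' : Set ℕ} (h : E ⊆ E') (h' : NullIn S E') :
    NullIn S E := by
  intro ε hε
  obtain ⟨N₀, hN₀⟩ := h' ε hε
  refine ⟨N₀, fun N hN => le_trans ?_ (hN₀ N hN)⟩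
  have hfin : {t : ℕ | t ∈ S N ∧ t ∈ E'}.Finite := (S N).finite_toSet.subset fun t ht => ht.1
  have hsub : {t : ℕ | t ∈ S N ∧ t ∈ E} ⊆ {t : ℕ | t ∈ S N ∧ t ∈ E'} := fun t ht =>
    ⟨ht.1, h ht.2⟩
  exact_mod_cast Set.ncard_le_ncard hsub hfin

theorem nullIn_empty {S : ℕ → Finset ℕ} : NullIn S ∅ := by
  intro ε hε
  refine ⟨0, fun N _ => ?_⟩
  have h1 : {t : ℕ | t ∈ S N ∧ t ∈ (∅ : Set ℕ)} = ∅ := by
    ext t
    simp
  rw [h1, Set.ncard_empty]
  simp only [Nat.cast_zero]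
  positivity

theorem nullIn_union {S : ℕ → Finset ℕ} {E E' : Set ℕ} (h : NullIn S E) (h' : NullIn S E') :
    NullIn S (E ∪ E') := by
  intro ε hε
  obtain ⟨N₁, h1⟩ := h (ε / 2) (by positivity)
  obtain ⟨N₂, h2⟩ := h' (ε / 2) (by positivity)
  refine ⟨max N₁ N₂, fun N hN => ?_⟩
  have h3 := h1 N ((le_max_left _ _).trans hN)
  have h4 := h2 N ((le_max_right _ _).trans hN)
  have hsub : {t : ℕ | t ∈ S N ∧ t ∈ E ∪ E'} ⊆ {t : ℕ | t ∈ S N ∧ t ∈ E} ∪
      {t : ℕ | t ∈ S N ∧ t ∈ E'} := by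
    rintro t ⟨ht, ht' | ht'⟩
    · exact Or.inl ⟨ht, ht'⟩
    · exact Or.inr ⟨ht, ht'⟩
  have hfin : ({t : ℕ | t ∈ S N ∧ t ∈ E} ∪ {t : ℕ | t ∈ S N ∧ t ∈ E'}).Finite :=
    (Finset.finite_toSet (S N)).subset (by
      rintro t (ht | ht)
      · exact ht.1
      · exact ht.1)
  have h5 : ({t : ℕ | t ∈ S N ∧ t ∈ E ∪ E'}.ncard : ℝ) ≤
      ({t : ℕ | t ∈ S N ∧ t ∈ E}.ncard : ℝ) + ({t : ℕ | t ∈ S N ∧ t ∈ E'}.ncard : ℝ) := by
    have := (Set.ncard_le_ncard hsub hfin).trans (Set.ncard_union_le _ _)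
    exact_mod_cast this
  linarith

/-- one null set for countably many null sets -/
theorem diag_countable {ι : Type u} [Countable ι] {S₁ S₂ : ℕ → Finset ℕ}
    (hS₁ : ∀ N, S₁ N ⊆ Ioc N (2 * N)) (hS₂ : ∀ N, S₂ N ⊆ Ioc N (2 * N)) (B : ι → Set ℕ)
    (h₁ : ∀ i, NullIn S₁ (B i)) (h₂ : ∀ i, NullIn S₂ (B i)) :
    ∃ E : Set ℕ, NullIn S₁ E ∧ NullIn S₂ E ∧ ∀ i, (B i \ E).Finite := by
  classical
  rcases isEmpty_or_nonempty ι with hι | hι
  · exact ⟨∅, nullIn_empty, nullIn_empty, fun i => (hι.false i).elim⟩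
  obtain ⟨f, hf⟩ := exists_surjective_nat ι
  let E : ℕ → Set ℕ := fun K => {t | ∃ i ≤ K, t ∈ B (f i)}
  have hmono : Monotone E := by
    rintro K K' hK t ⟨i, hi, ht⟩
    exact ⟨i, hi.trans hK, ht⟩
  have hE : ∀ (S : ℕ → Finset ℕ), (∀ i, NullIn S (B i)) → ∀ K, NullIn S (E K) := by
    intro S hS K
    induction K with
    | zero =>
      refine nullIn_mono ?_ (hS (f 0))
      rintro t ⟨i, hi, ht⟩
      rwa [Nat.le_zero.1 hi] at ht
    | succ K ih =>
      refine nullIn_mono ?_ (nullIn_union ih (hS (f (K + 1))))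
      rintro t ⟨i, hi, ht⟩
      rcases Nat.lt_or_ge i (K + 1) with h | h
      · exact Or.inl ⟨i, Nat.lt_succ_iff.1 h, ht⟩
      · have : i = K + 1 := le_antisymm hi h
        subst this
        exact Or.inr ht
  obtain ⟨E', h1, h2, h3⟩ := diag hmono hS₁ hS₂ (hE _ h₁) (hE _ h₂)
  refine ⟨E', h1, h2, fun i => ?_⟩
  obtain ⟨K, rfl⟩ := hf i
  refine (h3 K).subset ?_
  rintro t ⟨ht, ht'⟩
  exact ⟨⟨K, le_rfl, ht⟩, ht'⟩

/-! ### countably many rings -/

instance countable_mv (n : ℕ) : Countable (MvPolynomial (Fin n) ℤ) := by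
  rw [← Cardinal.mk_le_aleph0_iff]
  refine (MvPolynomial.cardinalMk_le_max).trans ?_
  rw [sup_le_iff, sup_le_iff]
  exact ⟨⟨Cardinal.mk_le_aleph0, Cardinal.mk_le_aleph0⟩, le_rfl⟩

instance countable_ideal (n : ℕ) : Countable (Ideal (MvPolynomial (Fin n) ℤ)) := by
  have h : Function.Surjective (fun s : Finset (MvPolynomial (Fin n) ℤ) =>
      Ideal.span (s : Set (MvPolynomial (Fin n) ℤ))) := by
    intro I
    obtain ⟨s, hs⟩ := (isNoetherianRing_iff_ideal_fg _).1 inferInstance I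
    exact ⟨s, hs⟩
  exact h.countable

/-- the codes for the data -/
def Code : Type := Σ n : ℕ, Σ m : ℕ, Ideal (MvPolynomial (Fin n) ℤ) ×
  (Fin m → MvPolynomial (Fin n) ℤ) × ℕ

instance : Countable Code := by
  unfold Code
  infer_instance

/-! ### transfer -/

/-- the assertions do not depend on the field of fractions -/
theorem goodX_transfer {R k k' : Type} [CommRing R] [IsDomain R] [Field k] [Field k']
    [Algebra R k] [Algebra R k'] [IsFractionRing R k] [IsFractionRing R k'] (d : ℕ)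
    (c : Fin (d + 2) → R) (h : GoodX.{v, w, y} k d c) : GoodX.{v, w, y} k' d c := by
  let σ : k ≃ₐ[R] k' := IsLocalization.algEquiv (nonZeroDivisors R) k k'
  have hσ : ∀ x, σ (algebraMap R k x) = algebraMap R k' x := fun x => σ.commutes x
  obtain ⟨h1, h2, h3, h4⟩ := h
  have hpol : (pol fun i : Fin (d + 1) => algebraMap R k (c i.succ)).map (σ : k →+* k') =
      pol fun i : Fin (d + 1) => algebraMap R k' (c i.succ) := by
    rw [pol_map]
    congr 1
    funext i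
    exact hσ _
  refine ⟨?_, ?_, ?_, ?_⟩
  · rw [← hσ]
    exact (map_ne_zero_iff _ σ.injective).2 h1
  · rw [← hσ]
    exact (map_ne_zero_iff _ σ.injective).2 h2
  · rw [← hpol]
    exact (MulEquiv.irreducible_iff (Polynomial.mapEquiv σ.toRingEquiv).toMulEquiv).2 h3
  · intro n hn L _ _ _
    let _ : Algebra k L := ((algebraMap k' L).comp (σ : k →+* k')).toAlgebra
    let _ : Algebra k k' := (σ : k →+* k').toAlgebra
    have hst : IsScalarTower k k' L := IsScalarTower.of_algebraMap_eq (fun _ => rfl)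
    have hone : Module.finrank k k' = 1 := by
      let τ : k ≃ₗ[k] k' := { σ.toRingEquiv with
        map_smul' := fun x y => by
          change σ (x * y) = σ x * σ y
          exact map_mul σ x y }
      rw [← τ.finrank_eq, Module.finrank_self]
    have hfin1 : FiniteDimensional k k' := FiniteDimensional.of_finrank_pos (by rw [hone]; exact one_pos)
    have hfin : FiniteDimensional k L := FiniteDimensional.trans k k' L
    have hrank : Module.finrank k L = Module.finrank k' L := by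
      rw [← Module.finrank_mul_finrank k k' L, hone, one_mul]
    have h5 := h4 n hn L
    rw [hrank] at h5
    have e1 : algebraMap k L (algebraMap R k (c 0)) = algebraMap k' L (algebraMap R k' (c 0)) := by
      rw [← hσ]
      rfl
    have e2 : (pol fun i : Fin (d + 1) => algebraMap R k (c i.succ)).map (algebraMap k L) =
        (pol fun i : Fin (d + 1) => algebraMap R k' (c i.succ)).map (algebraMap k' L) := by
      rw [← hpol, Polynomial.map_map]
      rfl
    rw [e1, e2] at h5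
    exact h5

/-- only the images of the coefficients matter -/
theorem goodX_congr {R R' k : Type} [CommRing R] [CommRing R'] [Field k] [Algebra R k]
    [Algebra R' k] (d : ℕ) (c : Fin (d + 2) → R) (c' : Fin (d + 2) → R')
    (h : ∀ i, algebraMap R k (c i) = algebraMap R' k (c' i)) (hg : GoodX.{v, w, y} k d c) :
    GoodX.{v, w, y} k d c' := by
  unfold GoodX at hg ⊢
  simp only [h] at hg
  exact hg

/-! ### the theorem -/

/-- the coefficients -/
noncomputable def kvec {k : Type} [Field k] {m : ℕ} (e : Fin m → k) (F : ℕ → ℕ → Finset ℝ)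
    (a : ℕ → ℕ → ℝ → ℝ) (d t : ℕ) : Fin (d + 2) → k :=
  fun i => ∑ j : Fin m, ((⌊∑ x ∈ F i j, a i j x * (t : ℝ) ^ x⌋ : ℤ) : k) * e j

/-- the field `k` is generated by the images of the variables -/
def Gen {n : ℕ} {k : Type} [Field k] (I : Ideal (MvPolynomial (Fin n) ℤ))
    (φ : MvPolynomial (Fin n) ℤ →+* k) : Prop :=
  RingHom.ker φ = I ∧ ∀ z : k, ∃ x y, z = φ x / φ y

/-- the exceptional set of a code -/
def Bad (F : ℕ → ℕ → Finset ℝ) (a : ℕ → ℕ → ℝ → ℝ) (n m : ℕ) (I : Ideal (MvPolynomial (Fin n) ℤ))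
    (e : Fin m → MvPolynomial (Fin n) ℤ) (d : ℕ) : Set ℕ :=
  {t | ∃ (k : Type) (_ : Field k) (_ : CharZero k) (φ : MvPolynomial (Fin n) ℤ →+* k), Gen I φ ∧
    (∃ j, φ (e j) ≠ 0) ∧ 3 ≤ d ∧ ¬ GoodX.{v, w, y} k d (kvec (fun j => φ (e j)) F a d t)}

theorem finType {R : Type} [CommRing R] {n : ℕ} (π : MvPolynomial (Fin n) ℤ →+* R)
    (hπ : Function.Surjective π) : Algebra.FiniteType ℤ R := by
  have heq : (MvPolynomial.aeval (R := ℤ) (fun i => π (MvPolynomial.X i))).toRingHom = π := by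
    apply MvPolynomial.ringHom_ext
    · intro r
      simp
    · intro i
      simp
  refine Algebra.FiniteType.of_surjective
    (MvPolynomial.aeval (R := ℤ) (fun i => π (MvPolynomial.X i))) fun z => ?_
  obtain ⟨x, rfl⟩ := hπ z
  exact ⟨x, RingHom.congr_fun heq x⟩

theorem bad_null (F : ℕ → ℕ → Finset ℝ) (a : ℕ → ℕ → ℝ → ℝ) (c : ℕ → ℕ → ℝ)
    (h : ∀ i j, c i j ∈ F i j ∧ (∀ t ∈ F i j, t ≤ c i j) ∧ 0 < c i j ∧ (∀ m : ℕ, c i j ≠ m) ∧
      0 < a i j (c i j))
    (hc : Function.Injective (fun z : ℕ × ℕ => c z.1 z.2)) (n m : ℕ)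
    (I : Ideal (MvPolynomial (Fin n) ℤ)) (e : Fin m → MvPolynomial (Fin n) ℤ) (d : ℕ) :
    NullIn (fun N => Ioc N (2 * N)) (Bad.{v, w, y} F a n m I e d) ∧
      NullIn primes (Bad.{v, w, y} F a n m I e d) := by
  classical
  by_cases hex : ∃ (k : Type) (_ : Field k) (_ : CharZero k) (φ : MvPolynomial (Fin n) ℤ →+* k),
      Gen I φ ∧ (∃ j, φ (e j) ≠ 0) ∧ 3 ≤ d
  swap
  · have hE : Bad.{v, w, y} F a n m I e d ⊆ ∅ := by
      rintro t ⟨k, i1, i2, φ, g1, g2, g3, -⟩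
      exact hex ⟨k, i1, i2, φ, g1, g2, g3⟩
    exact ⟨nullIn_mono hE nullIn_empty, nullIn_mono hE nullIn_empty⟩
  obtain ⟨k₀, _, _, φ₀, ⟨hker, hgen⟩, ⟨j₀, hj₀⟩, hd⟩ := hex
  -- the ring
  let R := MvPolynomial (Fin n) ℤ ⧸ I
  have key : ∀ (k : Type) (_ : Field k) (φ : MvPolynomial (Fin n) ℤ →+* k), Gen I φ →
      ∃ ψ : R →+* k, Function.Injective ψ ∧ (∀ x, ψ (Ideal.Quotient.mk I x) = φ x) ∧
        ∀ z : k, ∃ x y, z = ψ x / ψ y := by
    intro k _ φ ⟨hk, hz⟩
    refine ⟨Ideal.Quotient.lift I φ (fun x hx => by rwa [← hk, RingHom.mem_ker] at hx), ?_,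
      fun x => Ideal.Quotient.lift_mk I φ _, ?_⟩
    · rw [injective_iff_map_eq_zero]
      intro x hx
      obtain ⟨x, rfl⟩ := Ideal.Quotient.mk_surjective x
      rw [Ideal.Quotient.lift_mk] at hx
      rw [Ideal.Quotient.eq_zero_iff_mem, ← hk, RingHom.mem_ker]
      exact hx
    · intro z
      obtain ⟨x, y, hxy⟩ := hz z
      refine ⟨Ideal.Quotient.mk I x, Ideal.Quotient.mk I y, ?_⟩
      rw [Ideal.Quotient.lift_mk, Ideal.Quotient.lift_mk]
      exact hxy
  obtain ⟨ψ₀, hψ₀, hψe, hψg⟩ := key k₀ _ φ₀ ⟨hker, hgen⟩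
  have hdom : IsDomain R := hψ₀.isDomain ψ₀
  have hcz : CharZero R := RingHom.charZero ψ₀
  have hft := finType (Ideal.Quotient.mk I) Ideal.Quotient.mk_surjective
  let _ : Algebra R k₀ := ψ₀.toAlgebra
  have hfs : FaithfulSMul R k₀ := (faithfulSMul_iff_algebraMap_injective R k₀).2 hψ₀
  have hfr : IsFractionRing R k₀ := IsFractionRing.of_field R k₀ hψg
  let e' : Fin m → R := fun j => Ideal.Quotient.mk I (e j)
  have he' : e' j₀ ≠ 0 := by
    intro h0
    apply hj₀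
    rw [← hψe, show Ideal.Quotient.mk I (e j₀) = 0 from h0, map_zero]
  obtain ⟨g1, g2⟩ := one_gen e' j₀ (fun i (j : Fin m) => F i j) (fun i (j : Fin m) => a i j)
    (fun i (j : Fin m) => c i j) (fun i j => h i j) (by
      rintro ⟨i, j⟩ ⟨i', j'⟩ hzz
      have h1 := @hc (i, j.val) (i', j'.val) hzz
      rw [Prod.mk.injEq] at h1 ⊢
      exact ⟨h1.1, Fin.ext h1.2⟩) d (fun c => GoodX.{v, w, y} k₀ d c)
    (supply_all.{v, w, y} (k := k₀) e' j₀ he' d hd)
  have hsub : Bad.{v, w, y} F a n m I e d ⊆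
      {t | ¬ GoodX.{v, w, y} k₀ d (cvec e' (fun i (j : Fin m) => F i j)
        (fun i (j : Fin m) => a i j) d t)} := by
    rintro t ⟨k, _, _, φ, hφ, -, -, hbad⟩ hgood
    apply hbad
    obtain ⟨ψ, hψ, hψe', hψg'⟩ := key k _ φ hφ
    let _ : Algebra R k := ψ.toAlgebra
    have hfs : FaithfulSMul R k := (faithfulSMul_iff_algebraMap_injective R k).2 hψ
    have hfr : IsFractionRing R k := IsFractionRing.of_field R k hψg'
    refine goodX_congr d _ _ ?_ (goodX_transfer (k := k₀) (k' := k) d _ hgood)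
    intro i
    change ψ (∑ j, _ * _) = ∑ j : Fin m, _ * _
    rw [map_sum]
    refine Finset.sum_congr rfl fun j _ => ?_
    rw [map_mul, map_intCast, hψe']
  exact ⟨nullIn_mono hsub g1, nullIn_mono hsub g2⟩

/-- one exceptional set for all finitely generated fields, all elements and all degrees -/
theorem main_all (F : ℕ → ℕ → Finset ℝ) (a : ℕ → ℕ → ℝ → ℝ) (c : ℕ → ℕ → ℝ)
    (h : ∀ i j, c i j ∈ F i j ∧ (∀ t ∈ F i j, t ≤ c i j) ∧ 0 < c i j ∧ (∀ m : ℕ, c i j ≠ m) ∧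
      0 < a i j (c i j))
    (hc : Function.Injective (fun z : ℕ × ℕ => c z.1 z.2)) :
    ∃ E : Set ℕ, NullIn (fun N => Ioc N (2 * N)) E ∧ NullIn primes E ∧
      ∀ (k : Type) [Field k] [CharZero k], (∃ s : Finset k, Subfield.closure (s : Set k) = ⊤) →
        ∀ (m : ℕ) (e : Fin m → k), e ≠ 0 → ∀ d : ℕ, 3 ≤ d →
          {t : ℕ | t ∉ E ∧ ¬ GoodX.{v, w, y} k d (kvec e F a d t)}.Finite := by
  classical
  let B : Code → Set ℕ := fun z => Bad.{v, w, y} F a z.1 z.2.1 z.2.2.1 z.2.2.2.1 z.2.2.2.2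
  obtain ⟨E, h1, h2, h3⟩ := diag_countable (fun N => Finset.Subset.refl _)
    (fun N => Finset.filter_subset _ _) B
    (fun z => (bad_null F a c h hc z.1 z.2.1 z.2.2.1 z.2.2.2.1 z.2.2.2.2).1)
    (fun z => (bad_null F a c h hc z.1 z.2.1 z.2.2.1 z.2.2.2.1 z.2.2.2.2).2)
  refine ⟨E, h1, h2, ?_⟩
  intro k _ _ ⟨s, hs⟩ m e he d hd
  -- the generators
  let val : Fin (s.card + m) → k := Fin.append (fun i => (s.equivFin.symm i : k)) e
  let φ : MvPolynomial (Fin (s.card + m)) ℤ →+* k := (MvPolynomial.aeval (R := ℤ) val).toRingHom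
  have hφX : ∀ i, φ (MvPolynomial.X i) = val i := fun i => MvPolynomial.aeval_X val i
  have hφe : ∀ j, φ (MvPolynomial.X (Fin.natAdd s.card j)) = e j := by
    intro j
    rw [hφX]
    exact Fin.append_right _ _ j
  have hcl : ∀ z : k, ∃ x y, z = φ x / φ y := by
    intro z
    have hz : z ∈ Subfield.closure (s : Set k) := by
      rw [hs]
      trivial
    obtain ⟨x, hx, y, hy, hxy⟩ := Subfield.mem_closure_iff.1 hz
    have hle : Subring.closure (s : Set k) ≤ φ.range := by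
      rw [Subring.closure_le]
      intro u hu
      refine ⟨MvPolynomial.X (Fin.castAdd m (s.equivFin ⟨u, hu⟩)), ?_⟩
      rw [hφX]
      change Fin.append _ _ _ = u
      rw [Fin.append_left, Equiv.symm_apply_apply]
    obtain ⟨x', rfl⟩ := hle hx
    obtain ⟨y', rfl⟩ := hle hy
    exact ⟨x', y', hxy.symm⟩
  obtain ⟨j₀, hj₀⟩ : ∃ j, e j ≠ 0 := by
    by_contra hcon
    push Not at hcon
    exact he (funext hcon)
  refine (h3 ⟨s.card + m, m, RingHom.ker φ, fun j => MvPolynomial.X (Fin.natAdd s.card j),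
    d⟩).subset ?_
  rintro t ⟨ht, ht'⟩
  refine ⟨⟨k, inferInstance, inferInstance, φ, ⟨rfl, hcl⟩, ⟨j₀, by rw [hφe]; exact hj₀⟩, hd, ?_⟩,
    ht⟩
  have heq : (fun j => φ (MvPolynomial.X (Fin.natAdd s.card j))) = e := funext hφe
  rw [heq]
  exact ht'

end Pool.Agent.N339.BS
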