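import Pool.Agent.N339.BS.Dvr
import Pool.Agent.TH377.Sup.Val
import Pool.Agent.TH377.NC.Local

/-!
# Norm-form curves over all finite extensions of the field of fractions of a discrete valuation ring

Compare `Pool.Agent.N168.NC.nf_both` and `Pool.Agent.TH377.NC.gen_both`.
-/

set_option autoImplicit false
set_option maxHeartbeats 400000
set_option linter.unusedSectionVars false

namespace Pool.Agent.N339.BS

open Polynomial WithZero Pool.Agent.W620.SC Pool.Agent.TH120.Sec
open Pool.Agent.TH377.LocG Pool.Agent.TH377.Sup Pool.Agent.TH377.NC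
open scoped Matrix

universe u v w x y z

/-- transversality over any algebraically closed field; this is `Pool.Agent.N168.NC.nd_lift'` -/
theorem nd_lift' {K : Type u} [Field K] {B : Type w} [Field B] [Algebra K B]
    {R : Type v} [Field R] [Algebra K R] [Algebra R B] [IsScalarTower K R B] [IsAlgClosed B]
    (h : K[X]) (h0 : h ≠ 0) (P : Fin 3 → K[X]) (Q : MvPolynomial (Fin 3) K)
    (htr : ∀ θ θ' : AlgebraicClosure K, aeval θ h = 0 → aeval θ' h = 0 → θ ≠ θ' →
      MvPolynomial.aeval ((fun j => aeval θ (P j)) ⨯₃ (fun j => aeval θ' (P j))) Q ≠ 0)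
    (θ θ' : B) (hθ : aeval θ h = 0) (hθ' : aeval θ' h = 0) (hne : θ ≠ θ') :
    MvPolynomial.eval₂ (algebraMap R B) ((fun j => aeval θ ((P j).map (algebraMap K R))) ⨯₃
      (fun j => aeval θ' ((P j).map (algebraMap K R))))
      (MvPolynomial.map (algebraMap K R) Q) ≠ 0 := by
  classical
  let ι : AlgebraicClosure K →ₐ[K] B := IsAlgClosed.lift
  have hroot : ∀ t : B, aeval t h = 0 → ∃ r : AlgebraicClosure K, aeval r h = 0 ∧ ι r = t := by
    intro t ht
    have hsp : (h.map (algebraMap K (AlgebraicClosure K))).Splits := IsAlgClosed.splits _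
    have h0' : h.map (algebraMap K B) ≠ 0 := Polynomial.map_ne_zero h0
    have h1 : t ∈ (h.map (algebraMap K B)).roots := by
      rw [mem_roots h0', IsRoot.def, eval_map_algebraMap]
      exact ht
    have h2 : h.map (algebraMap K B) = (h.map (algebraMap K (AlgebraicClosure K))).map
          (ι : AlgebraicClosure K →+* B) := by
      rw [Polynomial.map_map, AlgHom.comp_algebraMap]
    rw [h2, hsp.roots_map, Multiset.mem_map] at h1
    obtain ⟨r, hr, hrt⟩ := h1
    refine ⟨r, ?_, hrt⟩
    rw [mem_roots (Polynomial.map_ne_zero h0), IsRoot.def, eval_map_algebraMap] at hr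
    exact hr
  obtain ⟨r, hr, hrθ⟩ := hroot θ hθ
  obtain ⟨r', hr', hrθ'⟩ := hroot θ' hθ'
  have hrr : r ≠ r' := by
    rintro rfl
    exact hne (hrθ.symm.trans hrθ')
  have h1 := htr r r' hr hr' hrr
  intro h2
  apply h1
  apply (ι : AlgebraicClosure K →+* B).injective
  rw [map_zero, MvPolynomial.aeval_def, MvPolynomial.hom_eval₂]
  rw [MvPolynomial.eval₂_map, ← IsScalarTower.algebraMap_eq K R B] at h2
  rw [AlgHom.comp_algebraMap]
  convert h2 using 2
  funext k
  have e1 := map_cross (ι : AlgebraicClosure K →+* B) (fun j => aeval r (P j))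
    (fun j => aeval r' (P j)) k
  have e2 : ∀ (s : AlgebraicClosure K) (s' : B), ι s = s' →
      (fun j => (ι : AlgebraicClosure K →+* B) (aeval s (P j))) =
        fun j => aeval s' ((P j).map (algebraMap K R)) := by
    intro s s' hs
    funext j
    change ι (aeval s (P j)) = _
    rw [aeval_map_algebraMap, ← aeval_algHom_apply, hs]
  rw [e2 r θ hrθ, e2 r' θ' hrθ'] at e1
  exact e1.symm

lemma roots_aux {K : Type u} {L : Type y} {Ω : Type w} [Field K] [Field L] [Field Ω] [Algebra K L]
    [Algebra L Ω] [Algebra K Ω] [IsScalarTower K L Ω] (c : L) (hc : c ≠ 0) (h : K[X]) :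
    ((C c * h.map (algebraMap K L)).map (algebraMap L Ω)).roots = h.aroots Ω := by
  have h1 : algebraMap L Ω c ≠ 0 := (map_ne_zero_iff _ (algebraMap L Ω).injective).2 hc
  rw [Polynomial.map_mul, map_C, roots_C_mul _ h1, Polynomial.map_map,
    ← IsScalarTower.algebraMap_eq K L Ω]

lemma root_aux {K : Type u} {L : Type y} {Ω : Type w} [Field K] [Field L] [Field Ω] [Algebra K L]
    [Algebra L Ω] [Algebra K Ω] [IsScalarTower K L Ω] (c : L) (hc : c ≠ 0) (h : K[X]) (θ : Ω)
    (hθ : aeval θ (C c * h.map (algebraMap K L)) = 0) : aeval θ h = 0 := by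
  have h1 : algebraMap L Ω c ≠ 0 := (map_ne_zero_iff _ (algebraMap L Ω).injective).2 hc
  rw [map_mul, aeval_C, aeval_map_algebraMap] at hθ
  exact (mul_eq_zero.1 hθ).resolve_left h1

/-- the equation `N(A₀ x₀ + A₁ x₁ + A₂ x₂) = a Qⁿ`, the norm being the product over the roots of `h` -/
def OnN {K : Type u} {Ω : Type w} [Field K] [Field Ω] [Algebra K Ω] (h : K[X]) (A : Fin 3 → K[X])
    (a : K) (Q : MvPolynomial (Fin 3) K) (n : ℕ) (x : Fin 3 → Ω) : Prop :=
  ((h.aroots Ω).map fun θ => ∑ j, aeval θ (A j) * x j).prod =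
    algebraMap K Ω a * MvPolynomial.aeval x Q ^ n

/-- the form `Q` does not vanish at the points of intersection of the conjugate lines -/
def TrN {K : Type u} [Field K] (h : K[X]) (A : Fin 3 → K[X]) (Q : MvPolynomial (Fin 3) K) : Prop :=
  ∀ θ θ' : AlgebraicClosure K, aeval θ h = 0 → aeval θ' h = 0 → θ ≠ θ' →
    MvPolynomial.aeval ((fun j => aeval θ (A j)) ⨯₃ (fun j => aeval θ' (A j))) Q ≠ 0

/-- all assertions about the norm-form curves over all finite extensions -/
def NormAll {K : Type u} [Field K] (d : ℕ) (a : K) (h : K[X]) : Prop :=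
  ∀ (n q : ℕ), n * q = d → ∀ (L : Type y) [Field L] [Algebra K L] [FiniteDimensional K L],
    ¬ Nat.gcd n (d / Nat.gcd 2 d) ∣ Module.finrank K L →
      ∀ (A : Fin 3 → K[X]) (Q : MvPolynomial (Fin 3) K), Q.IsHomogeneous q → TrN h A Q →
        (∀ x : Fin 3 → L, x ≠ 0 →
          ¬ OnN h A a Q n fun j => algebraMap L (AlgebraicClosure L) (x j)) ∧
        ∀ (F : Type v) (Ω : Type w) [Field F] [Field Ω] [Algebra L F] [Algebra F Ω] [Algebra L Ω]
          [Algebra K Ω] [IsScalarTower L F Ω] [IsScalarTower K L Ω] [IsAlgClosure F Ω]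
          (x : Fin 3 → F) (U : Set (ValuationSubring F)), x ≠ 0 →
          OnN h A a Q n (fun j => algebraMap F Ω (x j)) →
          (∀ O ∈ U, ∀ c : L, algebraMap L F c ∈ O) → IsEmpty (GSection L F Ω U)

section

variable {R : Type z} {K : Type u} [CommRing R] [IsDomain R] [IsDiscreteValuationRing R] [Field K]
  [Algebra R K] [IsFractionRing R K] [CharZero K]

/-- norm-form curves over all finite extensions -/
theorem normAll_of_dvr (g : R[X]) (hg : IsUnit g.leadingCoeff)
    (hs : (g.map (IsLocalRing.residue R)).Separable)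
    (hirr : Irreducible (g.map (IsLocalRing.residue R))) (d : ℕ) (hd : 0 < d)
    (hdeg : (g.map (IsLocalRing.residue R)).natDegree = d)
    (ϖ0 t0 : R) (hϖ0 : Irreducible ϖ0) (ht0 : IsUnit t0) (m : ℤ) (hm : m = 1 ∨ m = -1) (a : K)
    (ha : a = algebraMap R K t0 * algebraMap R K ϖ0 ^ m) :
    NormAll.{u, v, w, y} d a (g.map (algebraMap R K)) := by
  intro n q hnq L _ _ _ hL A Q hQ htr
  set h : K[X] := g.map (algebraMap R K) with hh
  set D := Nat.gcd n (d / Nat.gcd 2 d) with hD
  have hn0 : 0 < n := by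
    rcases Nat.eq_zero_or_pos n with h' | h'
    · rw [h', zero_mul] at hnq
      omega
    · exact h'
  have hD0 : D ≠ 0 := (Nat.gcd_pos_of_pos_left _ hn0).ne'
  let _ : Algebra R L := ((algebraMap K L).comp (algebraMap R K)).toAlgebra
  have hstR : IsScalarTower R K L := IsScalarTower.of_algebraMap_eq (fun _ => rfl)
  have hczL : CharZero L := charZero_of_injective_algebraMap (algebraMap K L).injective
  have hσ : FactorDiv (Nat.gcd 2 D * D) (g.map (IsLocalRing.residue R)) := by
    intro p hp hpP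
    have h1 : Associated p (g.map (IsLocalRing.residue R)) := hp.associated_of_dvd hirr hpP
    rw [natDegree_eq_of_degree_eq (degree_eq_degree_of_associated h1), hdeg]
    have h1 : D ∣ d / Nat.gcd 2 d := Nat.gcd_dvd_right _ _
    have h2 : d / Nat.gcd 2 d ∣ d := Nat.div_dvd_of_dvd (Nat.gcd_dvd_right 2 d)
    have h3 : Nat.gcd 2 D ∣ Nat.gcd 2 d := Nat.gcd_dvd_gcd_of_dvd_right 2 (h1.trans h2)
    have h4 := Nat.mul_dvd_mul h3 h1
    rwa [Nat.mul_div_cancel' (Nat.gcd_dvd_right 2 d)] at h4
  obtain ⟨ℓ, hℓ0, hℓD, B, _, _, _, _, hfr, f, hf, hfK, hfs, hfd, ϖ, t, m', hϖ, ht, hm', hat⟩ :=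
    dvr_data_u (k := K) (L := L) g hg hs D hD0 hσ ϖ0 t0 hϖ0 ht0 m hm hL
  -- the monic polynomial
  obtain ⟨uf, huf⟩ := hf
  set f1 : B[X] := C ((uf⁻¹ : Bˣ) : B) * f with hf1
  have hmon : f1.Monic := by
    rw [Monic, hf1, leadingCoeff_mul, leadingCoeff_C, ← huf, Units.inv_mul]
  have hmr : f1.map (IsLocalRing.residue B) =
      C (IsLocalRing.residue B ((uf⁻¹ : Bˣ) : B)) * f.map (IsLocalRing.residue B) := by
    rw [hf1, Polynomial.map_mul, map_C]
  have hur : IsUnit (IsLocalRing.residue B ((uf⁻¹ : Bˣ) : B)) := (uf⁻¹).isUnit.map _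
  have hassr : Associated (f.map (IsLocalRing.residue B)) (f1.map (IsLocalRing.residue B)) := by
    rw [hmr, mul_comm]
    exact associated_mul_unit_right _ _ (isUnit_C.2 hur)
  have hs1 : (f1.map (IsLocalRing.residue B)).Separable := by
    refine Polynomial.Separable.of_dvd hfs hassr.symm.dvd
  have hfd1 : FactorDiv (Nat.gcd 2 ℓ * ℓ) (f1.map (IsLocalRing.residue B)) := fun p hp hpf =>
    hfd p hp (hpf.trans hassr.symm.dvd)
  have hinjB := IsFractionRing.injective B L
  have hRL : Function.Injective (algebraMap R L) := by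
    rw [IsScalarTower.algebraMap_eq R K L]
    exact (algebraMap K L).injective.comp (IsFractionRing.injective R K)
  have hh0 : h ≠ 0 := by
    rw [hh, Ne, Polynomial.map_eq_zero_iff (IsFractionRing.injective R K)]
    rintro rfl
    rw [Polynomial.map_zero] at hirr
    exact not_irreducible_zero hirr
  have hhd : h.natDegree = d := by
    rw [hh, natDegree_map_eq_of_injective (IsFractionRing.injective R K), ← hdeg]
    exact (natDegree_map_of_leadingCoeff_ne_zero _ (hg.map _).ne_zero).symm
  have hfL : f.map (algebraMap B L) = h.map (algebraMap K L) := by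
    rw [hfK, hh, Polynomial.map_map, ← IsScalarTower.algebraMap_eq R K L]
  have hcL : algebraMap B L ((uf⁻¹ : Bˣ) : B) ≠ 0 := by
    rw [Ne, map_eq_zero_iff _ hinjB]
    exact (uf⁻¹).ne_zero
  have hf1L : f1.map (algebraMap B L) =
      C (algebraMap B L ((uf⁻¹ : Bˣ) : B)) * h.map (algebraMap K L) := by
    rw [hf1, Polynomial.map_mul, map_C, hfL]
  obtain ⟨n', rfl⟩ : ∃ n', n = ℓ * n' := hℓD.trans (Nat.gcd_dvd_left _ _)
  have hn' : 0 < n' := Nat.pos_of_ne_zero fun h' => by
    rw [h', mul_zero] at hn0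
    exact lt_irrefl _ hn0
  have hfdeg : f1.natDegree = n' * ℓ * q := by
    have h1 : (f1.map (algebraMap B L)).natDegree = f1.natDegree := hmon.natDegree_map _
    rw [← h1, hf1L, natDegree_C_mul hcL, natDegree_map, hhd, ← hnq]
    ring
  have hQL : (MvPolynomial.map (algebraMap K L) Q).IsHomogeneous q := hQ.map _
  have hbL : algebraMap K L a = algebraMap B L t * algebraMap B L ϖ ^ m' := by
    rw [← hat, ha, map_mul, map_zpow₀]
    rfl
  set c : L := algebraMap B L ((uf⁻¹ : Bˣ) : B) with hc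
  refine ⟨?_, ?_⟩
  · intro x hx hon
    have hst : IsScalarTower K L (AlgebraicClosure L) := inferInstance
    refine local_point (A := B) (k := L) (kb := AlgebraicClosure L) ℓ hℓ0 f1 hmon hs1 hfd1 ϖ hϖ
      (algebraMap K L a) t ht m' hm' hbL (fun j => (A j).map (algebraMap K L))
      (MvPolynomial.map (algebraMap K L) Q) q hQL ?_ x hx n' hn' ?_
    · intro θ θ' hθ hθ' hne
      rw [hf1L] at hθ hθ'
      exact nd_lift' h hh0 A Q htr θ θ' (root_aux c hcL h θ hθ) (root_aux c hcL h θ' hθ') hne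
    · rw [hf1L, roots_aux c hcL]
      simp only [aeval_map_algebraMap]
      unfold OnN at hon
      rw [hon, ← IsScalarTower.algebraMap_apply, mul_comm n' ℓ]
      congr 2
      rw [MvPolynomial.aeval_def, MvPolynomial.eval₂_map, MvPolynomial.hom_eval₂,
        RingHom.id_comp, ← IsScalarTower.algebraMap_eq]
  · intro F Ω _ _ _ _ _ _ _ _ _ x U hx hon hU
    have hcl : IsAlgClosed Ω := IsAlgClosure.isAlgClosed F
    have halg : Algebra.IsAlgebraic F Ω := IsAlgClosure.isAlgebraic
    have hac : IsAlgClosure L (algebraicClosure L Ω) := inferInstance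
    have hkb : IsAlgClosed (algebraicClosure L Ω) := hac.1
    refine local_section (A := B) (k := L) ℓ hℓ0 f1 hmon hs1 hfd1 ϖ hϖ
      (algebraMap K L a) t ht m' hm' hbL U hU (fun j => (A j).map (algebraMap K L))
      (MvPolynomial.map (algebraMap K L) Q) q hQL ?_ x hx n' hn' hfdeg ?_
    · intro θ θ' hθ hθ' hne
      rw [hf1L] at hθ hθ'
      exact nd_lift' h hh0 A Q htr θ θ' (root_aux c hcL h θ hθ) (root_aux c hcL h θ' hθ') hne
    · rw [hf1L, roots_aux c hcL]
      simp only [aeval_map_algebraMap]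
      unfold OnN at hon
      rw [hon, ← IsScalarTower.algebraMap_apply, mul_comm n' ℓ]
      congr 2
      rw [MvPolynomial.aeval_def, MvPolynomial.eval₂_map, MvPolynomial.hom_eval₂,
        ← RingHom.comp_assoc, ← IsScalarTower.algebraMap_eq L F Ω,
        ← IsScalarTower.algebraMap_eq K L Ω]

end

end Pool.Agent.N339.BS
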