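import Pool.Agent.N92.TH.Main
import Pool.Agent.N339.BS.EmbR

/-!
# Residue classes with good coefficients, and thin sequences

The proofs are those of `Pool.Agent.N92.TH` (helper92), for arbitrary assertions about the coefficients.
-/

set_option autoImplicit false

namespace Pool.Agent.N339.BS

open Finset Polynomial WithZero NumberField IsDedekindDomain Pool.Agent.W858.SF Pool.Agent.W858.SG
open Pool.Agent.TH377.Sup Pool.Agent.N666.TM Pool.Agent.N92.TH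
open Pool.Agent.N666.VE (primes)

universe v w y

/-- classes modulo `p²` of coordinate vectors -/
theorem exists_omega_y {R : Type} [CommRing R]
    {L : Type} [Field L] [NumberField L] (P : R →+* L) (v : HeightOneSpectrum (𝓞 L))
    (hint : ∀ r, v.valuation L (P r) ≤ 1) (p : ℕ) (hp : p.Prime)
    (hN : Ideal.absNorm v.asIdeal = p)
    (hur : (p : 𝓞 L) ∉ v.asIdeal ^ 2) {J : Type} [Fintype J] [DecidableEq J] (e : J → R) (j₀ : J)
    (he : v.valuation L (P (e j₀)) = 1) (d : ℕ) (hd : 3 ≤ d) :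
    ∃ Ω : Set (Fin (d + 2) × J → ZMod (p ^ 2)),
      (1 / (4 * d)) * (1 / (p : ℝ) - 1 / (p : ℝ) ^ 2) ≤ dens Ω ∧
      ∀ x : Fin (d + 2) × J → ℤ, Pool.Agent.Y722.HS.red (p ^ 2) x ∈ Ω →
        ∃ y : Fin (d + 2) → 𝓞 L,
          (∀ i, v.valuation L (P (comb e x i) - algebraMap (𝓞 L) L (y i)) ≤ exp (-2)) ∧
          y 0 ∈ v.asIdeal ∧ y 0 ∉ v.asIdeal ^ 2 ∧ IrrMod v d fun i => y i.succ := by
  classical
  have hmax : v.asIdeal.IsMaximal := v.isMaximal
  have hfin := Pool.Agent.TH120.Sec.finite_sq v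
  have hcard : Nat.card (𝓞 L ⧸ v.asIdeal ^ 2) = p ^ 2 := by
    rw [Pool.Agent.W417.SecC.D2.card_sq, hN]
  have hnz : NeZero (p ^ 2) := ⟨pow_ne_zero _ hp.ne_zero⟩
  obtain ⟨τ, hτ⟩ := cast_surj v p hp hN hcard hur
  -- approximations of the `P (e j)`
  have hY : ∀ j, ∃ y : 𝓞 L, v.valuation L (P (e j) - algebraMap (𝓞 L) L y) ≤ exp (-2) := by
    intro j
    obtain ⟨y, hy⟩ := exists_int_near {v} (P (e j)) (fun u hu => by
      rw [Finset.mem_singleton] at hu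
      rw [hu]; exact hint _)
    exact ⟨y, hy v (Finset.mem_singleton_self v)⟩
  choose Y hY using hY
  have hγ2 : (exp (-2) : ℤᵐ⁰) < 1 := by
    rw [← exp_zero, exp_lt_exp]
    omega
  have hYj : Y j₀ ∉ v.asIdeal := by
    intro h
    have h1 : v.valuation L (algebraMap (𝓞 L) L (Y j₀)) < 1 := by
      rw [HeightOneSpectrum.valuation_of_algebraMap]
      exact (v.intValuation_lt_one_iff_mem _).2 h
    have h3 : P (e j₀) = (P (e j₀) - algebraMap (𝓞 L) L (Y j₀)) + algebraMap (𝓞 L) L (Y j₀) := by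
      ring
    have h4 : v.valuation L (P (e j₀)) < 1 := by
      rw [h3]
      exact (Valuation.map_add _ _ _).trans_lt (max_lt ((hY j₀).trans_lt hγ2) h1)
    rw [he] at h4
    exact lt_irrefl _ h4
  obtain ⟨z, hz⟩ := unit_sq v.asIdeal (Y j₀) hYj
  -- the linear map
  let Φ : (Fin (d + 2) × J → ZMod (p ^ 2)) →+ (Fin (d + 2) → 𝓞 L ⧸ v.asIdeal ^ 2) :=
    { toFun := fun ρ i => ∑ j, τ (ρ (i, j)) * Ideal.Quotient.mk (v.asIdeal ^ 2) (Y j)
      map_zero' := by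
        funext i
        simp
      map_add' := by
        intro ρ ρ'
        funext i
        simp only [Pi.add_apply, map_add, add_mul, Finset.sum_add_distrib] }
  have hΦ : ∀ ρ i, Φ ρ i = ∑ j, τ (ρ (i, j)) * Ideal.Quotient.mk (v.asIdeal ^ 2) (Y j) :=
    fun _ _ => rfl
  have hΦs : Function.Surjective Φ := by
    intro b
    choose s hs using fun i => hτ (b i * Ideal.Quotient.mk (v.asIdeal ^ 2) z)
    refine ⟨fun x => if x.2 = j₀ then s x.1 else 0, ?_⟩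
    funext i
    rw [hΦ, Finset.sum_eq_single j₀]
    · simp only [if_true]
      rw [hs, mul_assoc, mul_comm (Ideal.Quotient.mk (v.asIdeal ^ 2) z), hz, mul_one]
    · intro j _ hj
      simp [hj]
    · intro h
      exact absurd (Finset.mem_univ _) h
  refine ⟨Φ ⁻¹' (GoodV v d), ?_, ?_⟩
  · -- the density
    have h1 := ncard_preimage Φ hΦs (GoodV v d)
    have hA : Nat.card (Fin (d + 2) × J → ZMod (p ^ 2)) =
        (p ^ 2) ^ Fintype.card (Fin (d + 2) × J) := by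
      rw [Nat.card_fun, Nat.card_zmod, Nat.card_eq_fintype_card]
    have hB : Nat.card (Fin (d + 2) → 𝓞 L ⧸ v.asIdeal ^ 2) = (p ^ 2) ^ (d + 2) := by
      rw [Nat.card_fun, hcard, Nat.card_fin]
    rw [hA, hB] at h1
    have h3 := badV_card v d hd
    rw [hN] at h3
    have h4 : (GoodV v d).ncard + ((GoodV v d)ᶜ).ncard = (p ^ 2) ^ (d + 2) := by
      rw [Set.ncard_add_ncard_compl, hB]
    have h4' : ((GoodV v d).ncard : ℝ) + (((GoodV v d)ᶜ).ncard : ℝ) = ((p : ℝ) ^ 2) ^ (d + 2) := by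
      exact_mod_cast h4
    have h5 : (1 / (4 * d)) * (1 / (p : ℝ) - 1 / (p : ℝ) ^ 2) * ((p : ℝ) ^ 2) ^ (d + 2) ≤
        ((GoodV v d).ncard : ℝ) := by
      have : (1 - (1 / (4 * d)) * (1 / (p : ℝ) - 1 / (p : ℝ) ^ 2)) * ((p : ℝ) ^ 2) ^ (d + 2) =
        ((p : ℝ) ^ 2) ^ (d + 2) -
          (1 / (4 * d)) * (1 / (p : ℝ) - 1 / (p : ℝ) ^ 2) * ((p : ℝ) ^ 2) ^ (d + 2) := by ring
      linarith
    have hp0 : (0 : ℝ) < p := by exact_mod_cast hp.pos
    unfold Pool.Agent.N666.TM.dens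
    rw [le_div_iff₀ (by push_cast; positivity)]
    have h6 : (((Φ ⁻¹' (GoodV v d)).ncard : ℕ) : ℝ) * ((p : ℝ) ^ 2) ^ (d + 2) =
        ((GoodV v d).ncard : ℝ) * ((p : ℝ) ^ 2) ^ Fintype.card (Fin (d + 2) × J) := by
      exact_mod_cast h1
    have h7 : (0 : ℝ) < ((p : ℝ) ^ 2) ^ (d + 2) := by positivity
    have h8 : (0 : ℝ) < ((p : ℝ) ^ 2) ^ Fintype.card (Fin (d + 2) × J) := by positivity
    push_cast
    apply le_of_mul_le_mul_right _ h7
    rw [h6]
    have h9 := mul_le_mul_of_nonneg_right h5 h8.le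
    linarith
  · -- the members of the class
    intro x hx
    set y : Fin (d + 2) → 𝓞 L := fun i => ∑ j, (x (i, j) : 𝓞 L) * Y j with hy
    have hred : Pool.Agent.TH120.Sec.red (v.asIdeal ^ 2) (d + 2) y ∈ GoodV v d := by
      have h1 : Φ (Pool.Agent.Y722.HS.red (p ^ 2) x) =
          Pool.Agent.TH120.Sec.red (v.asIdeal ^ 2) (d + 2) y := by
        funext i
        rw [hΦ]
        simp only [Pool.Agent.TH120.Sec.red, Pool.Agent.Y722.HS.red, hy, map_sum, map_mul,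
          map_intCast]
      rw [← h1]
      exact hx
    have hcy : ∀ i, v.valuation L (P (comb e x i) - algebraMap (𝓞 L) L (y i)) ≤ exp (-2) := by
      intro i
      have h1 : P (comb e x i) - algebraMap (𝓞 L) L (y i) =
          ∑ j, algebraMap (𝓞 L) L (x (i, j) : 𝓞 L) * (P (e j) - algebraMap (𝓞 L) L (Y j)) := by
        simp only [comb, hy, map_sum, map_mul, map_intCast]
        rw [← Finset.sum_sub_distrib]
        apply Finset.sum_congr rfl
        intro j _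
        ring
      rw [h1]
      apply Valuation.map_sum_le
      intro j _
      rw [map_mul]
      calc v.valuation L (algebraMap (𝓞 L) L (x (i, j) : 𝓞 L)) *
            v.valuation L (P (e j) - algebraMap (𝓞 L) L (Y j)) ≤ 1 * exp (-2) :=
            mul_le_mul' (HeightOneSpectrum.valuation_le_one v _) (hY j)
        _ = exp (-2) := one_mul _
    obtain ⟨g1, g2, g3⟩ := good_iff v d y hred
    exact ⟨y, hcy, g1, g2, g3⟩

/-- all assertions about the curves with the coefficients `c` over the finite extensions of `k` -/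
def GoodX {R : Type} [CommRing R] (k : Type) [Field k] [Algebra R k] (d : ℕ)
    (c : Fin (d + 2) → R) : Prop :=
  algebraMap R k (c 0) ≠ 0 ∧ algebraMap R k (c (Fin.last d).succ) ≠ 0 ∧
    Irreducible (pol fun i : Fin (d + 1) => algebraMap R k (c i.succ)) ∧
    FineAll.{0, v, w, y} d (algebraMap R k (c 0))
      (pol fun i : Fin (d + 1) => algebraMap R k (c i.succ))

/-- for every `B` there are primes with good classes of total density at least `B` -/
theorem supply_all {R k : Type} [CommRing R] [IsDomain R] [CharZero R] [Algebra.FiniteType ℤ R]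
    [Field k] [Algebra R k] [IsFractionRing R k] {J : Type} [Fintype J] [DecidableEq J]
    (e : J → R) (j₀ : J) (he : e j₀ ≠ 0) (d : ℕ) (hd : 3 ≤ d) (B : ℝ) :
    ∃ U : Finset ℕ, (∀ p ∈ U, p.Prime) ∧ ∃ Ω : ∀ p : ℕ, Set (Fin (d + 2) × J → ZMod (p ^ 2)),
      B ≤ ∑ p ∈ U, dens (Ω p) ∧ ∀ p ∈ U, ∀ c : Fin (d + 2) × J → ℤ,
        Pool.Agent.Y722.HS.red (p ^ 2) c ∈ Ω p → GoodX.{v, w, y} k d (comb e c) := by
  classical
  have hcz : CharZero k := charZero_of_injective_algebraMap (IsFractionRing.injective R k)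
  obtain ⟨L, _, _, P, hPe, hemb⟩ := emb_fg (k := k) (e j₀) he
  obtain ⟨N1, hN1, hemb⟩ := hemb
  obtain ⟨Dr, hDr, hur⟩ := unram_ae L
  -- numerator and denominator of `P (e j₀)`
  obtain ⟨a, b, hb, hab⟩ := IsFractionRing.div_surjective (A := 𝓞 L) (P (e j₀))
  have hb0 : b ≠ 0 := nonZeroDivisors.ne_zero hb
  have ha0 : a ≠ 0 := by
    rintro rfl
    rw [map_zero, zero_div] at hab
    exact hPe hab.symm
  have hD0 : N1 * Dr * 2 * a * b ≠ 0 :=
    mul_ne_zero (mul_ne_zero (mul_ne_zero (mul_ne_zero hN1 hDr) two_ne_zero) ha0) hb0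
  have hd0 : (0 : ℝ) < d := by
    have : 0 < d := by omega
    exact_mod_cast this
  obtain ⟨U, hU, hUB⟩ := primes_deg_one L _ hD0 (8 * d * |B|)
  have hex : ∀ p ∈ U, ∃ Ω : Set (Fin (d + 2) × J → ZMod (p ^ 2)),
      (1 / (4 * d)) * (1 / (p : ℝ) - 1 / (p : ℝ) ^ 2) ≤ dens Ω ∧
      ∀ x : Fin (d + 2) × J → ℤ, Pool.Agent.Y722.HS.red (p ^ 2) x ∈ Ω →
        GoodX.{v, w, y} k d (comb e x) := by
    intro p hp
    obtain ⟨hpp, v, hvN, hvD⟩ := hU p hp
    have v5 : b ∉ v.asIdeal := fun h => hvD (Ideal.mul_mem_left _ _ h)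
    have v4 : a ∉ v.asIdeal := fun h => hvD (Ideal.mul_mem_right _ _ (Ideal.mul_mem_left _ _ h))
    have v3 : (2 : 𝓞 L) ∉ v.asIdeal := fun h =>
      hvD (Ideal.mul_mem_right _ _ (Ideal.mul_mem_right _ _ (Ideal.mul_mem_left _ _ h)))
    have v2 : Dr ∉ v.asIdeal := fun h => hvD (Ideal.mul_mem_right _ _ (Ideal.mul_mem_right _ _
      (Ideal.mul_mem_right _ _ (Ideal.mul_mem_left _ _ h))))
    have v1 : N1 ∉ v.asIdeal := fun h => hvD (Ideal.mul_mem_right _ _ (Ideal.mul_mem_right _ _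
      (Ideal.mul_mem_right _ _ (Ideal.mul_mem_right _ _ h))))
    obtain ⟨hint, ψ, hψ⟩ := hemb v v1
    obtain ⟨Ω, hΩ1, hΩ2⟩ := exists_omega_y P v hint p hpp hvN (hur v v2 p hpp) e j₀ (by
      rw [← hab, map_div₀, (HeightOneSpectrum.valuation_eq_one_iff_notMem v).2 v4,
        (HeightOneSpectrum.valuation_eq_one_iff_notMem v).2 v5, div_one]) d hd
    refine ⟨Ω, hΩ1, fun x hx => ?_⟩
    obtain ⟨y, hcy, g1, g2, g3⟩ := hΩ2 x hx
    obtain ⟨l0, hl0, hld0⟩ := Nat.exists_prime_and_dvd (show d ≠ 1 by omega)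
    obtain ⟨k1, k2, k3, -⟩ := fine_embR.{0, v, w} v P ψ hint hψ v3 hd (comb e x) y hcy g1 g2 g3
      l0 hl0 hld0
    exact ⟨k1, k2, k3, all_embR v P ψ hint hψ v3 hd (comb e x) y hcy g1 g2 g3⟩
  choose! Ω hΩ1 hΩ2 using hex
  refine ⟨U, fun p hp => (hU p hp).1, Ω, ?_, hΩ2⟩
  have h1 : ∀ p ∈ U, 1 / (8 * d) * (1 / (p : ℝ)) ≤ dens (Ω p) := by
    intro p hp
    refine le_trans ?_ (hΩ1 p hp)
    have hp2 : (2 : ℝ) ≤ p := by exact_mod_cast (hU p hp).1.two_le
    have h3 : 1 / (2 * (p : ℝ)) ≤ 1 / (p : ℝ) - 1 / (p : ℝ) ^ 2 := by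
      rw [div_sub_div _ _ (by positivity) (by positivity),
        div_le_div_iff₀ (by positivity) (by positivity)]
      nlinarith [mul_nonneg (sub_nonneg.mpr hp2) (by positivity : (0 : ℝ) ≤ (p : ℝ) ^ 2)]
    calc 1 / (8 * d) * (1 / (p : ℝ)) = (1 / (4 * d)) * (1 / (2 * (p : ℝ))) := by
          field_simp; norm_num
      _ ≤ _ := mul_le_mul_of_nonneg_left h3 (by positivity)
  calc B ≤ |B| := le_abs_self B
    _ = 1 / (8 * d) * (8 * d * |B|) := by field_simp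
    _ ≤ 1 / (8 * d) * ∑ p ∈ U, 1 / (p : ℝ) := mul_le_mul_of_nonneg_left hUB (by positivity)
    _ = ∑ p ∈ U, 1 / (8 * d) * (1 / (p : ℝ)) := Finset.mul_sum _ _ _
    _ ≤ _ := Finset.sum_le_sum h1

/-- thin sequences, for an assertion `G` about the vectors of coefficients -/
theorem one_gen {R : Type} [CommRing R] {J : Type} [Fintype J] [DecidableEq J]
    (e : J → R) (j₀ : J) (F : ℕ → J → Finset ℝ) (a : ℕ → J → ℝ → ℝ)
    (c : ℕ → J → ℝ)
    (h : ∀ i j, c i j ∈ F i j ∧ (∀ t ∈ F i j, t ≤ c i j) ∧ 0 < c i j ∧ (∀ m : ℕ, c i j ≠ m) ∧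
      0 < a i j (c i j))
    (hc : Function.Injective (fun z : ℕ × J => c z.1 z.2)) (d : ℕ)
    (G : (Fin (d + 2) → R) → Prop)
    (hG : ∀ B : ℝ, ∃ U : Finset ℕ, (∀ p ∈ U, p.Prime) ∧
      ∃ Ω : ∀ p : ℕ, Set (Fin (d + 2) × J → ZMod (p ^ 2)),
      B ≤ ∑ p ∈ U, dens (Ω p) ∧ ∀ p ∈ U, ∀ c : Fin (d + 2) × J → ℤ,
        Pool.Agent.Y722.HS.red (p ^ 2) c ∈ Ω p → G (comb e c)) :
    NullIn (fun N => Ioc N (2 * N)) {t | ¬ G (cvec e F a d t)} ∧
      NullIn primes {t | ¬ G (cvec e F a d t)} := by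
  classical
  have : Nonempty (Fin (d + 2) × J) := ⟨(0, j₀)⟩
  obtain ⟨⟨κ₁, hκ₁, g₁⟩, ⟨κ₂, hκ₂, g₂⟩⟩ := fl_well (ι := Fin (d + 2) × J)
    (F := fun z => F z.1 z.2) (a := fun z => a z.1 z.2) (c := fun z => c z.1 z.2)
    (fun z => h z.1 z.2) (by
      rintro ⟨i, j⟩ ⟨i', j'⟩ hzz
      have h1 := @hc (i.val, j) (i'.val, j') hzz
      rw [Prod.mk.injEq] at h1 ⊢
      exact ⟨Fin.ext h1.1, h1.2⟩)
  have hcomb : ∀ t : ℕ, cvec e F a d t = comb e
      (fl (fun z : Fin (d + 2) × J => F z.1 z.2) (fun z => a z.1 z.2) t) := by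
    intro t
    funext i
    rfl
  constructor
  · intro ε hε
    obtain ⟨N₀, hN₀⟩ := thin_dens hκ₁ g₁ (fun x => G (comb e x)) hG ε hε
    refine ⟨N₀, fun N hN => le_trans (le_of_eq ?_) (hN₀ N hN)⟩
    simp only [hcomb, Set.mem_ofPred_eq]
  · intro ε hε
    obtain ⟨N₀, hN₀⟩ := thin_dens hκ₂ g₂ (fun x => G (comb e x)) hG ε hε
    refine ⟨N₀, fun N hN => le_trans (le_of_eq ?_) (hN₀ N hN)⟩
    simp only [hcomb, Set.mem_ofPred_eq]

end Pool.Agent.N339.BS
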