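import Pool.Agent.N339.BS.Dvr
import Pool.Agent.TH377.Sup.Val
import Pool.Agent.TH377.LocG.Res

/-!
# Superelliptic curves over all finite extensions of a field embedded into a discretely valued field
-/

set_option autoImplicit false
set_option maxHeartbeats 400000
set_option linter.unusedSectionVars false

namespace Pool.Agent.N339.BS

open Polynomial WithZero Pool.Agent.W620.SC Pool.Agent.W623.SecC Pool.Agent.TH120.Sec
open Pool.Agent.TH377.LocG Pool.Agent.TH377.Loc Pool.Agent.TH377.Sup Pool.Agent.W623.SecC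

universe u v w x y

/-- no points -/
def FineP {L : Type y} [Field L] (n : ℕ) (a : L) (f : L[X]) : Prop :=
  (∀ x y : L, a * y ^ n ≠ f.eval x) ∧
  (∀ r : L, a * r ^ Nat.gcd n f.natDegree ≠ f.leadingCoeff)

/-- no sections of the Galois groups of Kummer extensions -/
def FineM {L : Type y} [Field L] (D n : ℕ) (a : L) (f : L[X]) : Prop :=
  ∀ (F : Type v) (Ω : Type w) [Field F] [Field Ω] [Algebra L F] [Algebra F Ω] [Algebra L Ω]
    [IsScalarTower L F Ω] [IsAlgClosed Ω] [Algebra.IsAlgebraic F Ω] (M : IntermediateField F Ω),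
    (∀ c : algebraicClosure L Ω, (c : Ω) ∈ M) → ∀ x y : F, algebraMap L F a * y ^ n = aeval x f →
    (∀ θ θ' : Ω, aeval θ f = 0 → aeval θ' f = 0 →
      ∃ z ∈ M, z ^ D = (algebraMap F Ω x - θ) / (algebraMap F Ω x - θ')) →
    IsEmpty (MSection L F Ω M)

/-- no sections of the fundamental groups -/
def FineU {L : Type y} [Field L] (n : ℕ) (a : L) (f : L[X]) : Prop :=
  ∀ (F : Type v) (Ω : Type w) [Field F] [Field Ω] [Algebra L F] [Algebra F Ω] [Algebra L Ω]
    [IsScalarTower L F Ω] [IsAlgClosed Ω] [Algebra.IsAlgebraic F Ω] (U : Set (ValuationSubring F)),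
    (∀ O ∈ U, ∀ c : L, algebraMap L F c ∈ O) → ∀ x y : F,
    algebraMap L F a * y ^ n = aeval x f → IsEmpty (GSection L F Ω U)

/-- `d`, or `d / 2` if `4 ∣ d` -/
def core (d : ℕ) : ℕ := if 4 ∣ d then d / 2 else d

/-- the assertions over all finite extensions of `k` -/
def FineAll {k : Type u} [Field k] (d : ℕ) (a : k) (f : k[X]) : Prop :=
  ∀ n : ℕ, 0 < n → ∀ (L : Type y) [Field L] [Algebra k L] [FiniteDimensional k L],
    (¬ Nat.gcd n (core d) ∣ Module.finrank k L →
      FineP.{y} n (algebraMap k L a) (f.map (algebraMap k L)) ∧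
      FineU.{v, w, y} n (algebraMap k L a) (f.map (algebraMap k L))) ∧
    (¬ Nat.gcd n (d / Nat.gcd 2 d) ∣ Module.finrank k L →
      FineM.{v, w, y} (Nat.gcd n (d / Nat.gcd 2 d)) n (algebraMap k L a)
        (f.map (algebraMap k L)))

/-- the local theorem for one polynomial -/
theorem fineX_of_local {A L : Type y} [CommRing A] [IsDomain A] [IsDiscreteValuationRing A]
    [Field L] [Algebra A L] [IsFractionRing A L] [CharZero L] (ℓ : ℕ) (hℓ : 0 < ℓ) (f : A[X])
    (hlc : IsUnit f.leadingCoeff) (hs : (f.map (IsLocalRing.residue A)).Separable)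
    (hσ : FactorDiv (Nat.gcd 2 ℓ * ℓ) (f.map (IsLocalRing.residue A)))
    (ϖ : A) (hϖ : Irreducible ϖ) (a : L) (t : A) (ht : IsUnit t) (m : ℤ) (hm : ¬ (ℓ : ℤ) ∣ m)
    (ha : a = algebraMap A L t * algebraMap A L ϖ ^ m) (D n : ℕ) (hℓD : ℓ ∣ D) (hDn : D ∣ n) :
    FineP.{y} n a (f.map (algebraMap A L)) ∧ FineU.{v, w, y} n a (f.map (algebraMap A L)) ∧
      FineM.{v, w, y} D n a (f.map (algebraMap A L)) := by
  have e1 : ∏ _i : Unit, f ^ 1 = f := by simp
  have e2 : ∏ _i : Unit, f = f := by simp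
  have hρ : Function.Surjective (IsLocalRing.residue A) := IsLocalRing.residue_surjective
  have hℓn : ℓ ∣ n := hℓD.trans hDn
  have hs' : ((∏ _i : Unit, f).map (IsLocalRing.residue A)).Separable := by rwa [e2]
  have hσ' : FactorDiv (Nat.gcd 2 ℓ * ℓ) ((∏ _i : Unit, f).map (IsLocalRing.residue A)) := by
    rwa [e2]
  refine ⟨⟨?_, ?_⟩, ?_, ?_⟩
  · intro x y
    have h := res_P (IsLocalRing.residue A) hρ ℓ hℓ (fun _ : Unit => f) (fun _ => 1)
      (fun _ => hlc) hs' hσ' ϖ hϖ a t ht m hm ha n hℓn x y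
    rwa [e1] at h
  · intro r
    have h := res_inf (IsLocalRing.residue A) hρ ℓ hℓ (fun _ : Unit => f) (fun _ => 1)
      (fun _ => hlc) hs' hσ' ϖ hϖ a t ht m hm ha n hℓn r
    rwa [e1] at h
  · intro F Ω _ _ _ _ _ _ _ _ U hU x y hxy
    exact res_U (IsLocalRing.residue A) hρ ℓ hℓ (fun _ : Unit => f) (fun _ => 1)
      (fun _ => hlc) hs' hσ' ϖ hϖ a t ht m hm ha n hℓn (fun _ => Nat.coprime_one_right ℓ) U hU x y
      (by rwa [e1])
  · intro F Ω _ _ _ _ _ _ _ _ M hM x y hxy hroot
    refine res_M (IsLocalRing.residue A) hρ ℓ hℓ (fun _ : Unit => f) (fun _ => 1)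
      (fun _ => hlc) hs' hσ' ϖ hϖ a t ht m hm ha n hℓn M hM x y (by rwa [e1]) ?_
    intro θ θ' hθ hθ'
    rw [e2] at hθ hθ'
    obtain ⟨z, hzM, hz⟩ := hroot θ θ' hθ hθ'
    obtain ⟨s, hs⟩ := hℓD
    refine ⟨z ^ s, pow_mem hzM s, ?_⟩
    rw [← pow_mul, mul_comm s ℓ, ← hs]
    exact hz

/-- the local theorem for even exponents -/
theorem fineX_of_even {A L : Type y} [CommRing A] [IsDomain A] [IsDiscreteValuationRing A]
    [Field L] [Algebra A L] [IsFractionRing A L] [CharZero L]
    [Finite (IsLocalRing.ResidueField A)] (h2 : IsUnit (2 : A)) (f : A[X])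
    (hlc : IsUnit f.leadingCoeff) (hs : (f.map (IsLocalRing.residue A)).Separable)
    (hσ : FactorDiv 2 (f.map (IsLocalRing.residue A))) (hev : Even f.natDegree)
    (h4 : 4 ≤ f.natDegree)
    (ϖ : A) (hϖ : Irreducible ϖ) (a : L) (t : A) (ht : IsUnit t) (m : ℤ) (hm : Odd m)
    (ha : a = algebraMap A L t * algebraMap A L ϖ ^ m) (n : ℕ) (hn : 2 ∣ n) :
    FineP.{y} n a (f.map (algebraMap A L)) ∧ FineU.{v, w, y} n a (f.map (algebraMap A L)) := by
  have hroot : ∀ b, f.eval b ∉ IsLocalRing.maximalIdeal A := by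
    intro b hb
    have h1 : (f.map (IsLocalRing.residue A)).IsRoot (IsLocalRing.residue _ b) := by
      rw [IsRoot.def, eval_map, eval₂_at_apply]
      exact (IsLocalRing.residue_eq_zero_iff _).2 hb
    have h3 := hσ _ (irreducible_X_sub_C _) (dvd_iff_isRoot.2 h1)
    rw [natDegree_X_sub_C] at h3
    omega
  obtain ⟨n', rfl⟩ := hn
  have hinj := IsFractionRing.injective A L
  refine ⟨⟨?_, ?_⟩, ?_⟩
  · intro x y
    have h := no_affine_point ϖ hϖ f hlc hev hroot a t ht m hm ha x (y ^ n')
    rwa [← pow_mul, mul_comm n' 2] at h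
  · intro r hr
    have hdeg : (f.map (algebraMap A L)).natDegree = f.natDegree :=
      natDegree_map_eq_of_injective hinj f
    have hlcL : (f.map (algebraMap A L)).leadingCoeff = algebraMap A L f.leadingCoeff :=
      leadingCoeff_map_of_injective hinj f
    obtain ⟨s, hs'⟩ : 2 ∣ Nat.gcd (2 * n') f.natDegree :=
      Nat.dvd_gcd (dvd_mul_right 2 n') (even_iff_two_dvd.1 hev)
    rw [hdeg, hlcL, hs', mul_comm 2 s, pow_mul] at hr
    refine no_affine_point ϖ hϖ (C f.leadingCoeff) (by rwa [leadingCoeff_C]) (by simp) ?_ a t ht m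
      hm ha 0 (r ^ s) ?_
    · intro b
      rw [eval_C]
      exact fun h => (IsLocalRing.mem_maximalIdeal _).1 h hlc
    · rw [hr, map_C, eval_C]
  · intro F Ω _ _ _ _ _ _ _ _ U hU x y hxy
    refine local_no_section h2 f hlc hs hev h4 hroot ϖ hϖ a t ht m hm ha U hU x (y ^ n') ?_
    rw [← pow_mul, mul_comm n' 2]
    exact hxy

/-- the divisibility -/
lemma two_dvd (n d : ℕ) :
    Nat.gcd 2 (Nat.gcd n (d / Nat.gcd 2 d)) * Nat.gcd n (d / Nat.gcd 2 d) ∣ d := by
  have h1 : Nat.gcd n (d / Nat.gcd 2 d) ∣ d / Nat.gcd 2 d := Nat.gcd_dvd_right _ _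
  have h2 : d / Nat.gcd 2 d ∣ d := Nat.div_dvd_of_dvd (Nat.gcd_dvd_right 2 d)
  have h3 : Nat.gcd 2 (Nat.gcd n (d / Nat.gcd 2 d)) ∣ Nat.gcd 2 d :=
    Nat.gcd_dvd_gcd_of_dvd_right 2 (h1.trans h2)
  have h4 := Nat.mul_dvd_mul h3 h1
  rwa [Nat.mul_div_cancel' (Nat.gcd_dvd_right 2 d)] at h4

/-- the case of odd degrees -/
lemma odd_case (n d N : ℕ) (h4 : ¬ 4 ∣ d) (h : ¬ Nat.gcd n d ∣ N)
    (h' : Nat.gcd n (d / Nat.gcd 2 d) ∣ N) : 2 ∣ n ∧ 2 ∣ d ∧ ¬ 2 ∣ N := by
  have hd2 : 2 ∣ d := by
    by_contra hd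
    have hc : Nat.Coprime 2 d := (Nat.prime_two.coprime_iff_not_dvd).2 hd
    rw [Nat.Coprime.gcd_eq_one hc, Nat.div_one] at h'
    exact h h'
  obtain ⟨d', rfl⟩ := hd2
  have hg : Nat.gcd 2 (2 * d') = 2 := Nat.gcd_eq_left (dvd_mul_right 2 d')
  rw [hg, Nat.mul_div_cancel_left _ two_pos] at h'
  have hd' : ¬ 2 ∣ d' := by
    rintro ⟨s, rfl⟩
    exact h4 ⟨s, by ring⟩
  have hc' : Nat.Coprime 2 d' := (Nat.prime_two.coprime_iff_not_dvd).2 hd'
  have hn : 2 ∣ n := by
    by_contra hn
    have hc : Nat.Coprime 2 n := (Nat.prime_two.coprime_iff_not_dvd).2 hn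
    rw [Nat.Coprime.gcd_mul_left_cancel_right d' hc] at h
    exact h h'
  refine ⟨hn, dvd_mul_right 2 d', ?_⟩
  obtain ⟨n', rfl⟩ := hn
  rw [Nat.gcd_mul_left] at h
  rw [Nat.Coprime.gcd_mul_left_cancel n' hc'] at h'
  intro h2
  exact h (Nat.Coprime.mul_dvd_of_dvd_of_dvd
    (Nat.Coprime.coprime_dvd_right (Nat.gcd_dvd_right n' d') hc') h2 h')

/-- irreducible polynomials have no other factors -/
lemma factorDiv_irr {κ : Type*} [Field κ] (P : κ[X]) (hP : Irreducible P) (N : ℕ)
    (h : N ∣ P.natDegree) : FactorDiv N P := by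
  intro g hg hgP
  have h1 : Associated g P := hg.associated_of_dvd hP hgP
  rwa [natDegree_eq_of_degree_eq (degree_eq_degree_of_associated h1)]

/-- all finite extensions of the field of fractions of a discrete valuation ring -/
theorem fineAll_of_dvr {R : Type u} {k : Type x} [CommRing R] [IsDomain R]
    [IsDiscreteValuationRing R] [Finite (IsLocalRing.ResidueField R)] [Field k] [Algebra R k]
    [IsFractionRing R k] [CharZero k] (h2 : IsUnit (2 : R))
    (g : R[X]) (hg : IsUnit g.leadingCoeff) (hs : (g.map (IsLocalRing.residue R)).Separable)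
    (hirr : Irreducible (g.map (IsLocalRing.residue R))) (d : ℕ) (hd : 3 ≤ d)
    (hdeg : (g.map (IsLocalRing.residue R)).natDegree = d)
    (ϖ0 t0 : R) (hϖ0 : Irreducible ϖ0) (ht0 : IsUnit t0) (m : ℤ) (hm : m = 1 ∨ m = -1) (a : k)
    (ha : a = algebraMap R k t0 * algebraMap R k ϖ0 ^ m) :
    FineAll.{x, v, w, y} d a (g.map (algebraMap R k)) := by
  intro n hn L _ _ _
  set D := Nat.gcd n (d / Nat.gcd 2 d) with hD
  have hD0 : D ≠ 0 := (Nat.gcd_pos_of_pos_left _ hn).ne'
  let _ : Algebra R L := ((algebraMap k L).comp (algebraMap R k)).toAlgebra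
  have hst : IsScalarTower R k L := IsScalarTower.of_algebraMap_eq (fun _ => rfl)
  have hcz : CharZero L := charZero_of_injective_algebraMap (algebraMap k L).injective
  -- the general case
  have h1 : ¬ D ∣ Module.finrank k L →
      FineP.{y} n (algebraMap k L a) ((g.map (algebraMap R k)).map (algebraMap k L)) ∧
      FineU.{v, w, y} n (algebraMap k L a) ((g.map (algebraMap R k)).map (algebraMap k L)) ∧
      FineM.{v, w, y} D n (algebraMap k L a) ((g.map (algebraMap R k)).map (algebraMap k L)) := by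
    intro hL
    have hσ : FactorDiv (Nat.gcd 2 D * D) (g.map (IsLocalRing.residue R)) := by
      refine factorDiv_irr _ hirr _ ?_
      rw [hdeg]
      exact two_dvd n d
    obtain ⟨ℓ, hℓ0, hℓD, A, _, _, _, _, _, f, hf, hfL, hfs, hfd, ϖ, t, m', hϖ, ht, hm', hat⟩ :=
      dvr_data_u (k := k) (L := L) g hg hs D hD0 hσ ϖ0 t0 hϖ0 ht0 m hm hL
    have haL : algebraMap k L a = algebraMap A L t * algebraMap A L ϖ ^ m' := by
      rw [← hat, ha, map_mul, map_zpow₀]
      rfl
    have h := fineX_of_local.{v, w, y} ℓ hℓ0 f hf hfs hfd ϖ hϖ (algebraMap k L a) t ht m' hm' haL D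
      n hℓD (Nat.gcd_dvd_left _ _)
    rw [hfL] at h
    rwa [Polynomial.map_map, ← IsScalarTower.algebraMap_eq R k L]
  refine ⟨fun hL => ?_, fun hL => (h1 hL).2.2⟩
  by_cases hDL : D ∣ Module.finrank k L
  · have h4 : ¬ 4 ∣ d := by
      intro h4
      have h5 : core d = d / Nat.gcd 2 d := by
        rw [core, if_pos h4, Nat.gcd_eq_left ((show 2 ∣ 4 by norm_num).trans h4)]
      rw [h5] at hL
      exact hL hDL
    rw [core, if_neg h4] at hL
    obtain ⟨hn2, hd2, hN2⟩ := odd_case n d _ h4 hL hDL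
    have hσ : FactorDiv 2 (g.map (IsLocalRing.residue R)) := by
      refine factorDiv_irr _ hirr _ ?_
      rwa [hdeg]
    obtain ⟨A, _, _, _, _, _, f, hfin, h2A, hf, hfL, hfs, hfd, ϖ, t, m', hϖ, ht, hm', hat⟩ :=
      dvr_data_odd (k := k) (L := L) g hg hs hσ inferInstance h2 ϖ0 t0 hϖ0 ht0 m hm hN2
    have haL : algebraMap k L a = algebraMap A L t * algebraMap A L ϖ ^ m' := by
      rw [← hat, ha, map_mul, map_zpow₀]
      rfl
    have hRL : Function.Injective (algebraMap R L) := by
      rw [IsScalarTower.algebraMap_eq R k L]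
      exact (algebraMap k L).injective.comp (IsFractionRing.injective R k)
    have hgd : g.natDegree = d := by
      rw [← hdeg]
      exact (natDegree_map_of_leadingCoeff_ne_zero _ (hg.map _).ne_zero).symm
    have hfdeg : f.natDegree = d := by
      have h5 : (f.map (algebraMap A L)).natDegree = f.natDegree :=
        natDegree_map_eq_of_injective (IsFractionRing.injective A L) f
      rw [← h5, hfL, natDegree_map_eq_of_injective hRL, hgd]
    have h := fineX_of_even.{v, w, y} h2A f hf hfs hfd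
      (by rw [hfdeg]; exact even_iff_two_dvd.2 hd2) (by omega) ϖ hϖ
      (algebraMap k L a) t ht m' hm' haL n hn2
    rw [hfL] at h
    rwa [Polynomial.map_map, ← IsScalarTower.algebraMap_eq R k L]
  · exact ⟨(h1 hDL).1, (h1 hDL).2.1⟩

/-- irreducible reduction in a field embedded into a discretely valued field; compare
`Pool.Agent.TH377.Sup.fine_val` -/
theorem all_val {k : Type u} {E : Type x} [Field k] [CharZero k] [Field E]
    (V : Valuation E ℤᵐ⁰) [Finite (IsLocalRing.ResidueField V.valuationSubring)] (ψ : k →+* E)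
    (g : k[X]) (gB : V.valuationSubring[X])
    (hg : gB.map (algebraMap V.valuationSubring E) = g.map ψ) (hlc : IsUnit gB.leadingCoeff)
    (hirr : Irreducible (gB.map (IsLocalRing.residue V.valuationSubring)))
    (h2 : V (2 : E) = 1) (h3 : 3 ≤ g.natDegree)
    (a : k) (ha : V (ψ a) = exp (-1)) : FineAll.{u, v, w, y} g.natDegree a g := by
  classical
  obtain ⟨hdvr, ϖ, t, n, hϖ, ht, hn, hat⟩ := Pool.Agent.W858.SF.exists_unif (V.comap ψ) a (-1)
    (by decide) ha
  let i : (V.comap ψ).valuationSubring →+* V.valuationSubring :=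
    { toFun := fun y => ⟨ψ y, y.2⟩
      map_one' := Subtype.ext (map_one ψ)
      map_mul' := fun y z => Subtype.ext (map_mul ψ _ _)
      map_zero' := Subtype.ext (map_zero ψ)
      map_add' := fun y z => Subtype.ext (map_add ψ _ _) }
  have hcoe : ∀ y, ((i y : V.valuationSubring) : E) = ψ (y : k) := fun _ => rfl
  have hinj : Function.Injective i := by
    intro y z hyz
    apply Subtype.ext
    apply ψ.injective
    have := congrArg Subtype.val hyz
    exact this
  have hloc : IsLocalHom i := by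
    refine ⟨fun y hy => ?_⟩
    have h1 := (Valuation.Integers.isUnit_iff_valuation_eq_one
      (Valuation.valuationSubring.integers V)).1 hy
    exact (Valuation.Integers.isUnit_iff_valuation_eq_one
      (Valuation.valuationSubring.integers (V.comap ψ))).2 h1
  have hfin : Finite (IsLocalRing.ResidueField (V.comap ψ).valuationSubring) :=
    Finite.of_injective _ (IsLocalRing.ResidueField.map i).injective
  obtain ⟨f, hf⟩ : ∃ f : (V.comap ψ).valuationSubring[X],
      f.map (algebraMap (V.comap ψ).valuationSubring k) = g := by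
    have h1 : g ∈ Polynomial.lifts (algebraMap (V.comap ψ).valuationSubring k) := by
      rw [Polynomial.lifts_iff_coeff_lifts]
      intro j
      have h3 : ψ (g.coeff j) = (gB.coeff j : E) := by
        have := congrArg (fun q => q.coeff j) hg
        simp only [coeff_map] at this
        exact this.symm
      exact ⟨⟨g.coeff j, by
        change V (ψ (g.coeff j)) ≤ 1
        rw [h3]
        exact (gB.coeff j).2⟩, rfl⟩
    obtain ⟨f, hf⟩ := (Polynomial.mem_lifts _).1 h1
    exact ⟨f, hf⟩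
  have hfB : f.map i = gB := by
    apply Polynomial.map_injective (algebraMap V.valuationSubring E) Subtype.val_injective
    rw [hg, ← hf, Polynomial.map_map, Polynomial.map_map]
    rfl
  have hdeg : f.natDegree = g.natDegree := by
    rw [← hf]
    exact (natDegree_map_eq_of_injective Subtype.val_injective f).symm
  have hlcf : IsUnit f.leadingCoeff := by
    have h1 : i f.leadingCoeff = gB.leadingCoeff := by
      rw [← hfB]
      exact (leadingCoeff_map_of_injective hinj f).symm
    rw [← h1] at hlc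
    exact hloc.map_nonunit _ hlc
  have hfi : Irreducible (f.map (IsLocalRing.residue (V.comap ψ).valuationSubring)) := by
    refine irr_of_map (IsLocalRing.ResidueField.map i) _ ?_
    rw [Polynomial.map_map, IsLocalRing.ResidueField.map_comp_residue, ← Polynomial.map_map, hfB]
    exact hirr
  have hdegr : (f.map (IsLocalRing.residue (V.comap ψ).valuationSubring)).natDegree =
      g.natDegree := by
    rw [← hdeg]
    exact natDegree_map_of_leadingCoeff_ne_zero _ (hlcf.map _).ne_zero
  have hsf : (f.map (IsLocalRing.residue (V.comap ψ).valuationSubring)).Separable := by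
    have hperf : PerfectField (IsLocalRing.ResidueField (V.comap ψ).valuationSubring) :=
      inferInstance
    exact PerfectField.separable_of_irreducible hfi
  have hak : a = algebraMap (V.comap ψ).valuationSubring k t *
      algebraMap (V.comap ψ).valuationSubring k ϖ ^ n := hat
  have hn1 : n = 1 ∨ n = -1 := by
    have e1 : V (ψ (t : k)) = 1 := (Valuation.Integers.isUnit_iff_valuation_eq_one
      (Valuation.valuationSubring.integers (V.comap ψ))).1 ht
    have e2 : ψ (ϖ : k) ≠ 0 := by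
      rw [Ne, map_eq_zero]
      intro h
      exact hϖ.ne_zero (Subtype.ext h)
    have e3 : V (ψ (ϖ : k)) = exp (log (V (ψ (ϖ : k)))) :=
      (exp_log ((Valuation.ne_zero_iff V).2 e2)).symm
    have e4 : V (ψ a) = exp (n * log (V (ψ (ϖ : k)))) := by
      rw [hat, map_mul, map_mul, map_zpow₀, map_zpow₀, e1, one_mul]
      conv_lhs => rw [e3]
      rw [← exp_zsmul, smul_eq_mul]
    rw [ha, exp_inj] at e4
    have e5 : IsUnit n := by
      refine IsUnit.of_mul_eq_one (-log (V (ψ (ϖ : k)))) ?_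
      rw [mul_neg, ← e4]
      norm_num
    exact Int.isUnit_iff.1 e5
  have h2A : IsUnit (2 : (V.comap ψ).valuationSubring) := by
    refine (Valuation.Integers.isUnit_iff_valuation_eq_one
      (Valuation.valuationSubring.integers (V.comap ψ))).2 ?_
    change V (ψ 2) = 1
    rw [map_ofNat, h2]
  have h := fineAll_of_dvr.{u, v, w, u, y} (k := k) h2A f hlcf hsf hfi g.natDegree h3 hdegr ϖ t hϖ
    ht n hn1 a hak
  rwa [hf] at h

end Pool.Agent.N339.BS
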